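import Pool.Agent.H50.ODG.Targets

/-!
# Two-orbit polyhedra with odd vertex degrees (MP_397744_co): the Minkowski product
-/

set_option autoImplicit false

namespace Pool.Agent.H21.ODG

open Pool.Agent.H57.CP Pool.Agent.H39.TO Pool.Agent.H39.OD Pool.Agent.H50.ODG

lemma mk_comm (x y : V4) : mk x y = mk y x := by unfold mk; ring

lemma mk_add (x y z : V4) : mk x (y + z) = mk x y + mk x z := by
  simp only [mk, Pi.add_apply]; ring

lemma mk_sub (x y z : V4) : mk x (y - z) = mk x y - mk x z := by
  simp only [mk, Pi.sub_apply]; ring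

lemma mk_smul (x y : V4) (r : ℝ) : mk x (r • y) = r * mk x y := by
  simp only [mk, Pi.smul_apply, smul_eq_mul]; ring

lemma mk_neg (x y : V4) : mk x (-y) = -mk x y := by
  simp only [mk, Pi.neg_apply]; ring

lemma add_mk (x y z : V4) : mk (y + z) x = mk y x + mk z x := by
  simp only [mk, Pi.add_apply]; ring

lemma sub_mk (x y z : V4) : mk (y - z) x = mk y x - mk z x := by
  simp only [mk, Pi.sub_apply]; ring

lemma smul_mk (x y : V4) (r : ℝ) : mk (r • y) x = r * mk y x := by
  simp only [mk, Pi.smul_apply, smul_eq_mul]; ring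

lemma neg_mk (x y : V4) : mk (-y) x = -mk y x := by
  simp only [mk, Pi.neg_apply]; ring

lemma refl_eq (a x : V4) : refl a x = x + (2 * mk a x) • a := by
  ext i
  show x i + 2 * mk a x * a i = (x + (2 * mk a x) • a) i
  simp only [Pi.add_apply, Pi.smul_apply, smul_eq_mul]

/-- the reflection preserves the product -/
lemma mk_refl {a : V4} (ha : mk a a = -1) (x y : V4) : mk (refl a x) (refl a y) = mk x y := by
  rw [refl_eq, refl_eq]
  simp only [mk_add, add_mk, mk_smul, smul_mk, ha]
  rw [mk_comm x a]
  ring

/-- the reflection is an involution -/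
lemma refl_refl {a : V4} (ha : mk a a = -1) (x : V4) : refl a (refl a x) = x := by
  rw [refl_eq a (refl a x), refl_eq a x]
  simp only [mk_add, mk_smul, ha]
  ext i
  simp only [Pi.add_apply, Pi.smul_apply, smul_eq_mul]
  ring

lemma refl_mul {a : V4} (ha : mk a a = -1) : (refl a * refl a : Module.End ℝ V4) = 1 := by
  apply LinearMap.ext
  intro x
  exact refl_refl ha x

/-- the product with the image of a reflection -/
lemma mk_refl_left {a : V4} (ha : mk a a = -1) (x y : V4) : mk (refl a x) y = mk x (refl a y) := by
  rw [← mk_refl ha (refl a x) y, refl_refl ha]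

/-- the conjugate of a reflection -/
lemma refl_conj {a : V4} (ha : mk a a = -1) (b : V4) :
    (refl (refl a b) : Module.End ℝ V4) = refl a * refl b * refl a := by
  apply LinearMap.ext
  intro x
  show refl (refl a b) x = refl a (refl b (refl a x))
  rw [refl_eq (refl a b) x, refl_eq b (refl a x), map_add, refl_refl ha, map_smul,
    mk_refl_left ha]

lemma refl_fix {a x : V4} (h : mk a x = 0) : refl a x = x := by
  rw [refl_eq, h]; simp

lemma refl_neg_left (a : V4) : (refl (-a) : Module.End ℝ V4) = refl a := by
  apply LinearMap.ext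
  intro x
  rw [refl_eq, refl_eq, neg_mk]
  ext i
  simp only [Pi.add_apply, Pi.smul_apply, smul_eq_mul, Pi.neg_apply]
  ring

end Pool.Agent.H21.ODG
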