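import Pool.Agent.H50.ODG.Targets

/-!
# Two-orbit polyhedra with odd vertex degrees (MP_397744_co): section GEL

The parameters are between `0` and `1`, and the length of the edge is positive.
-/

set_option autoImplicit false

namespace Pool.Agent.H21.ODG

open Pool.Agent.H57.CP Pool.Agent.H39.TO Pool.Agent.H39.OD Pool.Agent.H50.ODG

/-- the sum of the angles is not `π` in the families `Fam0`, `Fam1` -/
lemma sum_ne_one {u v w : ℚ} (h : Fam0 u v w ∨ Fam1 u v w) : u + v + w ≠ 1 := by
  have six : ∀ p : ℕ, Odd p → 7 ≤ p → ∀ a b : ℚ, a / p = b → 0 < b → a = 6 * b → False := by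
    intro p _ h7 a b h1 hb h2
    have hp : (7 : ℚ) ≤ p := by exact_mod_cast h7
    rw [div_eq_iff (by positivity)] at h1
    nlinarith
  rcases h with h | h
  · rcases h with ⟨q, q', m, hq, hq', h3, hlt, hm, rfl, rfl, rfl⟩ |
      ⟨p, c, hp, hc, h3, h3', rfl, rfl, rfl⟩ | ⟨p, hp, _, h7, h⟩ | ⟨rfl, rfl, rfl⟩ | ⟨rfl, rfl, rfl⟩
    · intro h
      have h5 : 5 ≤ q' := by
        obtain ⟨a, rfl⟩ := hq
        obtain ⟨b, rfl⟩ := hq'
        omega
      have hq0 : (3 : ℚ) ≤ q := by exact_mod_cast h3
      have hq0' : (5 : ℚ) ≤ q' := by exact_mod_cast h5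
      rcases Nat.lt_or_ge m 3 with hm3 | hm3
      · have : m = 2 := by omega
        subst this
        have h1 : (q' : ℚ) * 2 + q * 2 = q * q' := by
          field_simp at h
          push_cast at h
          linarith
        have h2 : q' * 2 + q * 2 = q * q' := by exact_mod_cast h1
        have h4 : Odd (q * q') := hq.mul hq'
        rw [← h2] at h4
        exact (Nat.not_odd_iff_even.2 ⟨q' + q, by ring⟩) h4
      · have hm0 : (3 : ℚ) ≤ m := by exact_mod_cast hm3
        have e1 : 1 / (q : ℚ) ≤ 1 / 3 := one_div_le_one_div_of_le (by norm_num) hq0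
        have e2 : 1 / (q' : ℚ) ≤ 1 / 5 := one_div_le_one_div_of_le (by norm_num) hq0'
        have e3 : 1 / (m : ℚ) ≤ 1 / 3 := one_div_le_one_div_of_le (by norm_num) hm0
        linarith
    · intro h
      have hp0 : (3 : ℚ) ≤ p := by exact_mod_cast h3
      have hc0 : (3 : ℚ) ≤ c := by exact_mod_cast h3'
      have h1 : (c : ℚ) * 2 + p * 2 = p * c := by
        field_simp at h
        linarith
      have h2 : c * 2 + p * 2 = p * c := by exact_mod_cast h1
      have h4 : Odd (p * c) := hp.mul hc
      rw [← h2] at h4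
      exact (Nat.not_odd_iff_even.2 ⟨c + p, by ring⟩) h4
    · rcases h with ⟨rfl, rfl, rfl⟩ | ⟨rfl, rfl, rfl⟩
      · intro h
        refine six p hp h7 4 (2 / 3) ?_ (by norm_num) (by norm_num)
        have : (4 : ℚ) / p = 3 / p + 1 / p := by ring
        rw [this]; linarith
      · intro h
        refine six p hp h7 4 (2 / 3) ?_ (by norm_num) (by norm_num)
        have : (4 : ℚ) / p = 3 / p + 1 / p := by ring
        rw [this]; linarith
    · norm_num
    · norm_num
  · rcases h with ⟨p, hp, h7, h⟩ | ⟨rfl, rfl, rfl⟩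
    · rcases h with ⟨rfl, rfl, rfl⟩ | ⟨rfl, rfl, rfl⟩ | ⟨_, rfl, rfl, rfl⟩
      · intro h
        refine six p hp h7 3 (1 / 2) ?_ (by norm_num) (by norm_num)
        have : (3 : ℚ) / p = 2 / p + 1 / p := by ring
        rw [this]; linarith
      · intro h
        refine six p hp h7 6 1 ?_ (by norm_num) (by norm_num)
        have : (6 : ℚ) / p = 4 / p + 1 / p + 1 / p := by ring
        rw [this]; linarith
      · intro h
        refine six p hp h7 4 (2 / 3) ?_ (by norm_num) (by norm_num)
        have : (4 : ℚ) / p = 3 / p + 1 / p := by ring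
        rw [this]; linarith
    · norm_num

/-- GEL. -/
theorem pf_GEL (hFMB : T_FMB) : T_GEL := by
  intro u v w α β h
  have hf : Fam0 u v w ∨ Fam1 u v w ∨ Fam2 u v w := by
    rcases h.fam with h | h | h
    · exact Or.inl h
    · exact Or.inr (Or.inl h.1)
    · exact Or.inr (Or.inr h.1)
  obtain ⟨hu, hv, hw, -⟩ := hFMB u v w hf
  have hs := h.sum
  have hu1 : u < 1 := by linarith
  have hv1 : v < 1 := by linarith
  have hw1 : w < 1 := by linarith
  refine ⟨hu, hu1, hv, hv1, hw, hw1, ?_⟩
  have hpi := Real.pi_pos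
  have ru : (0 : ℝ) < u := by exact_mod_cast hu
  have rv : (0 : ℝ) < v := by exact_mod_cast hv
  have rw' : (0 : ℝ) < w := by exact_mod_cast hw
  have ru1 : (u : ℝ) < 1 := by exact_mod_cast hu1
  have rv1 : (v : ℝ) < 1 := by exact_mod_cast hv1
  have rs : (u : ℝ) + v + w ≤ 1 := by exact_mod_cast hs
  have su : 0 < sn u := Real.sin_pos_of_pos_of_lt_pi (by positivity) (by nlinarith)
  have sv : 0 < sn v := Real.sin_pos_of_pos_of_lt_pi (by positivity) (by nlinarith)
  have sa : 0 < Real.sin α := Real.sin_pos_of_pos_of_lt_pi h.a0 h.a1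
  have sb : 0 < Real.sin β := Real.sin_pos_of_pos_of_lt_pi h.b0 h.b1
  have hc : Real.cos (Real.pi - (u * Real.pi + v * Real.pi)) = sn u * sn v - cn u * cn v := by
    rw [Real.cos_pi_sub, Real.cos_add]
    unfold sn cn
    ring
  have hab : Real.cos α * Real.cos β - Real.sin α * Real.sin β = Real.cos (α + β) :=
    (Real.cos_add α β).symm
  unfold eL
  rw [lt_div_iff₀ (mul_pos sa sb), one_mul]
  rcases lt_or_eq_of_le hs with hlt | heq
  · have rlt : (u : ℝ) + v + w < 1 := by exact_mod_cast hlt
    have h1 : Real.cos (Real.pi - (u * Real.pi + v * Real.pi)) < cn w :=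
      Real.cos_lt_cos_of_nonneg_of_le_pi (by positivity) (by nlinarith) (by nlinarith)
    have hk : 1 < kap u v w := by
      unfold kap
      rw [lt_div_iff₀ (mul_pos su sv), one_mul]
      linarith
    have := Real.neg_one_le_cos (α + β)
    linarith
  · have hne : ¬ (Fam0 u v w ∨ Fam1 u v w) := fun h' => sum_ne_one h' heq
    have hp : α + β ≠ Real.pi := by
      rcases h.fam with h' | h' | h'
      · exact absurd (Or.inl h') hne
      · exact absurd (Or.inr h'.1) hne
      · exact h'.2.2
    have h1 : Real.cos (Real.pi - (u * Real.pi + v * Real.pi)) ≤ cn w :=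
      Real.cos_le_cos_of_nonneg_of_le_pi (by positivity) (by nlinarith) (by nlinarith)
    have hk : 1 ≤ kap u v w := by
      unfold kap
      rw [le_div_iff₀ (mul_pos su sv), one_mul]
      linarith
    have h2 : Real.cos (α + β) = -Real.cos (α + β - Real.pi) := by
      rw [Real.cos_sub_pi, neg_neg]
    have h3 : Real.cos (α + β - Real.pi) < 1 := by
      refine lt_of_le_of_ne (Real.cos_le_one _) ?_
      intro h4
      rw [Real.cos_eq_one_iff_of_lt_of_lt (by linarith [h.a0, h.b0]) (by linarith [h.a1, h.b1])] at h4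
      exact hp (by linarith)
    linarith

end Pool.Agent.H21.ODG
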