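import Pool.Agent.H21.ODG.Bas

/-!
# Two-orbit polyhedra with odd vertex degrees (MP_397744_co): section STM

Another mirror through the first base point.
-/

set_option autoImplicit false

namespace Pool.Agent.H21.ODG

open Pool.Agent.H57.CP Pool.Agent.H39.TO Pool.Agent.H39.OD Pool.Agent.H50.ODG

/-- STM. -/
theorem pf_STM (hDPT : T_DPT) (hYK : T_YK) : T_STM := by
  intro k q v w x x' n0 n1 n2 hk hkq hco C
  have hq3 : 3 ≤ q := by omega
  have hq0 : (0 : ℝ) < q := by
    have : 0 < q := by omega
    exact_mod_cast this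
  have hkr : (2 : ℝ) ≤ k := by exact_mod_cast hk
  have hkqr : (k : ℝ) < q := by exact_mod_cast hkq
  have hpi := Real.pi_pos
  have e20 : mk n2 n0 = Real.cos (k * Real.pi / q) := by
    rw [mk_comm, C.e02]
    unfold cn
    congr 1
    push_cast
    ring
  obtain ⟨m, um, em, gm, hst⟩ := hDPT n2 n0 k q C.u2 C.u0 hq3 (by omega) hkq hco e20
  have s1 : 0 < Real.sin (Real.pi / q) := by
    apply Real.sin_pos_of_pos_of_lt_pi (by positivity)
    rw [div_lt_iff₀ hq0]
    nlinarith
  have sk : 0 < Real.sin (k * Real.pi / q) := by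
    apply Real.sin_pos_of_pos_of_lt_pi (by positivity)
    rw [div_lt_iff₀ hq0]
    nlinarith
  -- the product of the relation with a vector
  have hp : ∀ y : V4, Real.sin (Real.pi / q) * mk y n0 = Real.sin (k * Real.pi / q) * mk y m +
      Real.sin ((k - 1) * Real.pi / q) * mk y n2 := by
    intro y
    have := congrArg (mk y) hst
    rw [mk_add, mk_smul, mk_smul, mk_smul] at this
    exact this
  obtain ⟨-, g0⟩ := hYK m n2 (Real.pi / q) um C.u2 (by rw [mk_comm]; exact em) s1.ne' k n0 (by
    rw [hst]
    congr 3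
    · ring
    · ring)
  refine ⟨m, um, by rw [mk_comm]; exact em, ?_, ?_, by rw [Set.pair_comm]; exact gm, g0, ?_, ?_, ?_, ?_⟩
  · have := hp x.1
    rw [C.xa, C.xc, mul_zero, mul_zero, add_zero] at this
    rcases mul_eq_zero.1 this.symm with h | h
    · exact absurd h sk.ne'
    · exact h
  · have := hp x'.1
    rw [C.yc, mul_zero, add_zero] at this
    by_contra hc
    push Not at hc
    have h1 : 0 ≤ Real.sin (k * Real.pi / q) * mk x'.1 m := mul_nonneg sk.le hc
    have h2 : Real.sin (Real.pi / q) * mk x'.1 n0 < 0 := mul_neg_of_pos_of_neg s1 C.ya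
    linarith
  · have := hp n1
    rw [mk_comm n1 n0, C.e01, C.e12, mk_comm n1 m] at this
    linarith
  · intro y h0 h2
    have := hp y
    rw [h0, h2, mul_zero, mul_zero, add_zero] at this
    rcases mul_eq_zero.1 this.symm with h | h
    · exact absurd h sk.ne'
    · exact h
  · intro y h0 h2
    have := hp y
    rw [h0, h2, mul_zero, mul_zero, add_zero] at this
    rcases mul_eq_zero.1 this with h | h
    · exact absurd h s1.ne'
    · exact h
  · have en : n0 = (Real.sin (k * Real.pi / q) / Real.sin (Real.pi / q)) • m +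
        (Real.sin ((k - 1) * Real.pi / q) / Real.sin (Real.pi / q)) • n2 := by
      have h := congrArg (fun z => (Real.sin (Real.pi / q))⁻¹ • z) hst
      simp only [smul_add, smul_smul, inv_mul_cancel₀ s1.ne', one_smul] at h
      rw [h]
      congr 2 <;> ring
    have ek : m = (Real.sin (Real.pi / q) / Real.sin (k * Real.pi / q)) • n0 -
        (Real.sin ((k - 1) * Real.pi / q) / Real.sin (k * Real.pi / q)) • n2 := by
      have h0 : Real.sin (k * Real.pi / q) • m = Real.sin (Real.pi / q) • n0 -
          Real.sin ((k - 1) * Real.pi / q) • n2 := by rw [hst, add_sub_cancel_right]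
      have h := congrArg (fun z => (Real.sin (k * Real.pi / q))⁻¹ • z) h0
      simp only [smul_sub, smul_smul, inv_mul_cancel₀ sk.ne', one_smul] at h
      rw [h]
      congr 2 <;> ring
    constructor
    · rintro ⟨r, s, t, h⟩
      refine ⟨r * (Real.sin (k * Real.pi / q) / Real.sin (Real.pi / q)), s,
        r * (Real.sin ((k - 1) * Real.pi / q) / Real.sin (Real.pi / q)) + t, ?_⟩
      rw [h]
      nth_rewrite 1 [en]
      module
    · rintro ⟨r, s, t, h⟩
      refine ⟨r * (Real.sin (Real.pi / q) / Real.sin (k * Real.pi / q)), s,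
        t - r * (Real.sin ((k - 1) * Real.pi / q) / Real.sin (k * Real.pi / q)), ?_⟩
      rw [h]
      nth_rewrite 1 [ek]
      module

end Pool.Agent.H21.ODG
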