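import Pool.Agent.H21.ODG.Bas

/-!
# Two-orbit polyhedra with odd vertex degrees (MP_397744_co): section XC2

Angles `π / q`, `π / q`, `2 π / p`: the symmetry axis of the isosceles triangle is a mirror of a larger Coxeter group.
-/

set_option autoImplicit false

namespace Pool.Agent.H21.ODG

open Pool.Agent.H57.CP Pool.Agent.H39.TO Pool.Agent.H39.OD Pool.Agent.H50.ODG

/-- XC2. -/
theorem pf_XC2 (hCHV : T_CHV) (hNR3 : T_NR3) (hCFI : T_CFI) (hVSR : T_VSR) (hLIP : T_LIP) (hLOR : T_LOR)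
    (hMKI : T_MKI) : T_XC2 := by
  have _ := hCFI
  intro q p x x' n0 n1 n2 hq hp C hI
  have hpi := Real.pi_pos
  have hq0 : (2 : ℝ) ≤ q := by exact_mod_cast hq
  have hp0 : (3 : ℝ) ≤ p := by exact_mod_cast hp
  have hc : 0 < Real.cos (Real.pi / p) := by
    apply Real.cos_pos_of_mem_Ioo
    constructor
    · have : 0 < Real.pi / p := by positivity
      linarith
    · rw [div_lt_div_iff₀ (by positivity) (by positivity)]
      nlinarith
  set c : ℝ := Real.cos (Real.pi / p) with hcdef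
  have e02 : mk n0 n2 = Real.cos (Real.pi / q) := by
    rw [C.e02]; unfold cn; congr 1; push_cast; ring
  have e12 : mk n1 n2 = Real.cos (Real.pi / q) := by
    rw [C.e12]; unfold cn; congr 1; push_cast; ring
  have e01 : mk n0 n1 = 2 * c ^ 2 - 1 := by
    rw [C.e01]; unfold cn
    rw [show ((2 / (p : ℚ) : ℚ) : ℝ) * Real.pi = 2 * (Real.pi / p) by push_cast; ring, Real.cos_two_mul]
  obtain ⟨n, hn⟩ : ∃ n : V4, n = (1 / (2 * c)) • (n0 - n1) := ⟨_, rfl⟩
  have hn2 : n0 - n1 = (2 * c) • n := by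
    rw [hn, smul_smul, mul_one_div_cancel (by positivity), one_smul]
  have pn : ∀ y : V4, mk y n = (mk y n0 - mk y n1) / (2 * c) := by
    intro y
    rw [hn, mk_smul, mk_sub]
    ring
  have n10 : mk n1 n0 = 2 * c ^ 2 - 1 := by rw [mk_comm]; exact e01
  have m0 : mk n0 n = -c := by
    rw [pn, C.u0, e01]; field_simp; ring
  have m1' : mk n1 n = c := by
    rw [pn, C.u1, n10]; field_simp; ring
  have m2' : mk n2 n = 0 := by
    rw [pn, mk_comm n2 n0, mk_comm n2 n1, e02, e12]; simp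
  have un : mk n n = -1 := by
    have h : mk n n = (mk n0 n - mk n1 n) / (2 * c) := by
      rw [pn, mk_comm n n0, mk_comm n n1]
    rw [h, m0, m1']; field_simp; ring
  have r0 : refl n n0 = n1 := by
    rw [refl_eq, mk_comm, m0]
    have : (2 * -c) • n = -(n0 - n1) := by rw [hn2]; module
    rw [this]; abel
  have r1 : refl n n1 = n0 := by rw [← r0, refl_refl un]
  have r2 : refl n n2 = n2 := refl_fix (by rw [mk_comm]; exact m2')
  -- the second base point
  obtain ⟨hLn, -⟩ := hLOR.2.2 n un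
  obtain ⟨g, -, hg⟩ := hMKI (refl n) hLn
  have hx0 : (g x').1 = refl n x'.1 := (hg x').symm
  obtain ⟨x0, hx0'⟩ : ∃ x0 : H3, x0 = g x' := ⟨_, rfl⟩
  rw [← hx0'] at hx0
  have b0 : mk x0.1 n0 = 0 := by rw [hx0, mk_refl_left un, r0, C.yb]
  have b2 : mk x0.1 n2 = 0 := by rw [hx0, mk_refl_left un, r2, C.yc]
  have bn : mk x0.1 (-n) < 0 := by
    rw [mk_neg, hx0, mk_refl_left un, refl_eq, un, mk_add, mk_smul, pn, C.yb]
    have h1 : mk x'.1 n0 / (2 * c) < 0 := div_neg_of_neg_of_pos C.ya (by positivity)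
    have h2 : -((mk x'.1 n0 - 0) / (2 * c) + 2 * -1 * ((mk x'.1 n0 - 0) / (2 * c))) =
      mk x'.1 n0 / (2 * c) := by ring
    rw [h2]; exact h1
  have an : mk x.1 (-n) < 0 := by
    rw [mk_neg, pn, C.xa]
    have h1 : mk x.1 n1 / (2 * c) < 0 := div_neg_of_neg_of_pos C.xb (by positivity)
    have h2 : -((0 - mk x.1 n1) / (2 * c)) = mk x.1 n1 / (2 * c) := by ring
    rw [h2]; exact h1
  have hne : x ≠ x0 := by
    intro h
    apply hI
    have h1 : x.1 = x'.1 + (2 * mk n x'.1) • n := by rw [h, hx0, refl_eq]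
    refine ⟨2 * mk n x'.1 * (1 / (2 * c)), -(2 * mk n x'.1 * (1 / (2 * c))), 0, ?_⟩
    rw [h1]
    nth_rewrite 2 [hn]
    module
  -- linear independence
  have hli : LinearIndependent ℝ ![n0, n2, -n] := by
    refine hLIP x.1 n0 n2 (-n) C.u0 C.u2 ?_ C.xa C.xc an.ne
    rw [e02]
    have h1 : 0 < Real.sin (Real.pi / q) := by
      apply Real.sin_pos_of_pos_of_lt_pi (by positivity)
      rw [div_lt_iff₀ (by positivity)]
      nlinarith
    have := Real.sin_sq_add_cos_sq (Real.pi / q)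
    nlinarith
  obtain ⟨M, hM, h01, -, -⟩ := hNR3 q p 2 n0 n2 (-n) hq (by omega) le_rfl C.u0 C.u2
    (by rw [mk_neg, neg_mk, un]; norm_num) e02 (by rw [mk_neg, m0, neg_neg])
    (by rw [mk_neg, m2']; simp) hli
  have hV := hCHV M ![n0, n2, -n] hM x x0 0 1 2 0 1 2 (by decide) (by decide) (by decide) (by decide)
    (by decide) (by decide) (by rw [h01]; omega) (by rw [h01]; omega) C.xa C.xc an b0 b2 bn hne
  have hV' : VS (Gam n0 n2 (-n)) (C2 n0 n2) (C2 n0 n2) x x0 := hV
  have hmem : (refl n : Module.End ℝ V4) ∈ Gam n0 n2 (-n) := by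
    rw [← refl_neg_left n]
    exact Submonoid.subset_closure (by simp)
  have hx' : x'.1 = refl n x0.1 := by rw [hx0, refl_refl un]
  have hV2 := hVSR.2.2.1 (Gam n0 n2 (-n)) (C2 n0 n2) n0 n2 n x x0 x' un hmem hx' hV'
  rw [r0, r2] at hV2
  refine hVSR.1 (Gam n0 n2 (-n)) (Gam n0 n1 n2) (C2 n0 n2) (C2 n1 n2) x x' ?_ hV2
  unfold Gam at hmem ⊢
  rw [Submonoid.closure_le]
  rintro y (rfl | rfl | rfl)
  · exact Submonoid.subset_closure (by simp)
  · rw [← r0, refl_conj un]
    exact mul_mem (mul_mem hmem (Submonoid.subset_closure (by simp))) hmem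
  · exact Submonoid.subset_closure (by simp)

end Pool.Agent.H21.ODG
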